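import Pool.Agent.H351Z.Fill

set_option autoImplicit false

namespace Pool.Agent.Results.MP_0ab388_gt.ClosedIrresolvable

/-- `A` fills `B`: every member `U` of `B` is the union of a subfamily of `A` not containing `U`. -/
def Fills {X : Type} (A B : Set (Set X)) : Prop :=
  ∀ U ∈ B, ∃ C : Set (Set X), C ⊆ A \ {U} ∧ ⋃₀ C = U

/-- `F` is the union of two disjoint subfamilies each of which fills `F`. -/
def Resolvable {X : Type} (F : Set (Set X)) : Prop :=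
  ∃ F₀ F₁ : Set (Set X), F₀ ∪ F₁ = F ∧ F₀ ∩ F₁ = ∅ ∧ Fills F₀ F ∧ Fills F₁ F

theorem fills_iff {X : Type} (A B : Set (Set X)) :
    Fills A B ↔ ∀ U ∈ B, ∀ a ∈ U, ∃ W ∈ A, W ≠ U ∧ a ∈ W ∧ W ⊆ U := by
  constructor
  · intro h U hU a ha
    obtain ⟨C, hC, rfl⟩ := h U hU
    obtain ⟨W, hW, haW⟩ := ha
    exact ⟨W, (hC hW).1, (hC hW).2, haW, Set.subset_sUnion_of_mem hW⟩
  · intro h U hU
    refine ⟨{W | W ∈ A ∧ W ≠ U ∧ W ⊆ U}, fun W hW => ⟨hW.1, hW.2.1⟩, ?_⟩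
    apply Set.Subset.antisymm
    · exact Set.sUnion_subset fun W hW => hW.2.2
    · intro a ha
      obtain ⟨W, h1, h2, h3, h4⟩ := h U hU a ha
      exact ⟨W, ⟨h1, h2, h4⟩, h3⟩

open Pool.Agent.H351Z.Fill in
/-- There is a self-filling family of closed (hence Borel) subsets of the Baire space that is not
resolvable. -/
theorem result : ∃ F : Set (Set (ℕ → ℕ)),
    (∀ U ∈ F, IsClosed U ∧ @MeasurableSet _ (borel (ℕ → ℕ)) U) ∧ Fills F F ∧ ¬ Resolvable F := by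
  refine ⟨F, fun U hU => ⟨isClosed_F U hU, ?_⟩, (fills_iff _ _).2 selfFilling, ?_⟩
  · letI : MeasurableSpace (ℕ → ℕ) := borel (ℕ → ℕ)
    haveI : BorelSpace (ℕ → ℕ) := ⟨rfl⟩
    exact (isClosed_F U hU).measurableSet
  · rintro ⟨F₀, F₁, h1, h2, h3, h4⟩
    refine not_resolvable F₀ F₁ h1 (Set.disjoint_iff_inter_eq_empty.2 h2) ?_ ?_
    · intro U hU a ha
      obtain ⟨W, hW, -, h5⟩ := (fills_iff _ _).1 h3 U hU a ha
      exact ⟨W, hW, h5⟩
    · intro U hU a ha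
      obtain ⟨W, hW, -, h5⟩ := (fills_iff _ _).1 h4 U hU a ha
      exact ⟨W, hW, h5⟩

end Pool.Agent.Results.MP_0ab388_gt.ClosedIrresolvable
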